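import Pool.Agent.helper17.CH.SpecW
import Pool.Agent.helper85.BVP.Boxes

/-!
# Project CH (MP_5628fe_nt), row HW: characters of small conductor with a smooth weight
-/

set_option autoImplicit false

namespace Pool.Agent.CH

open Finset ArithmeticFunction MeasureTheory
open Pool.Agent.helper85.BVP (trunc trunc_apply beta Mr Zr abs_Mr_le beta_eq_zero abs_beta_le tau
  sum_tau_le Zr_apply tau_nonneg)

/-- the coefficients of the second type I sum. -/
private theorem HW_coef (U V : ℕ) :
    (∀ n, U * V < n → (trunc Mr V * trunc vonMangoldt U) n = 0) ∧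
    ∀ n, n ≠ 0 → |(trunc Mr V * trunc vonMangoldt U) n| ≤ Real.log n := by
  constructor
  · intro n hn
    rw [mul_apply]
    refine sum_eq_zero fun p hp => ?_
    have hp' := (Nat.mem_divisorsAntidiagonal.mp hp).1
    rw [trunc_apply, trunc_apply]
    by_cases h1 : p.1 ≤ V
    · by_cases h2 : p.2 ≤ U
      · exfalso
        have : p.1 * p.2 ≤ V * U := Nat.mul_le_mul h1 h2
        rw [mul_comm V U] at this
        omega
      · rw [if_neg h2, mul_zero]
    · rw [if_neg h1, zero_mul]
  · intro n hn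
    rw [mul_apply]
    refine (abs_sum_le_sum_abs _ _).trans ?_
    have h1 : ∀ p ∈ n.divisorsAntidiagonal, |trunc Mr V p.1 * trunc vonMangoldt U p.2| ≤
        vonMangoldt p.2 := by
      intro p _
      rw [abs_mul, trunc_apply, trunc_apply]
      have a1 : |if p.1 ≤ V then Mr p.1 else 0| ≤ 1 := by
        split_ifs
        · exact abs_Mr_le _
        · simp
      have a2 : |if p.2 ≤ U then vonMangoldt p.2 else 0| ≤ vonMangoldt p.2 := by
        split_ifs
        · rw [abs_of_nonneg vonMangoldt_nonneg]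
        · rw [abs_zero]; exact vonMangoldt_nonneg
      calc _ ≤ 1 * vonMangoldt p.2 := mul_le_mul a1 a2 (abs_nonneg _) zero_le_one
        _ = _ := one_mul _
    refine (sum_le_sum h1).trans (le_of_eq ?_)
    have h2 : (Zr * vonMangoldt : ArithmeticFunction ℝ) n = Real.log n := by
      rw [zeta_mul_vonMangoldt, log_apply]
    rw [← h2, mul_apply]
    refine sum_congr rfl fun p hp => ?_
    have hp' := Nat.mem_divisorsAntidiagonal.mp hp
    rw [Zr_apply _ (by rintro h; rw [h, zero_mul] at hp'; exact hn hp'.1.symm), one_mul]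

private theorem HW_cont (M : ℕ) (a : ℕ → ℂ) : Continuous (fun t : ℝ => DPb M a t) := by
  unfold DPb nit
  fun_prop

private theorem HW_int (ε : ℝ) (B₁ B₁' N : ℕ) (hB : B₁ ≤ B₁') (hN : 1 ≤ Real.log N) (M K : ℕ)
    (a b : ℕ → ℂ) :
    ∫ t in Tset ε B₁' N, ‖DPb M a t‖ ^ 2 * ‖DPb K b t‖ ^ 2 ≤
      ∫ t in Tset ε B₁ N, ‖DPb M a t‖ ^ 2 * ‖DPb K b t‖ ^ 2 := by
  have hc : Continuous (fun t : ℝ => ‖DPb M a t‖ ^ 2 * ‖DPb K b t‖ ^ 2) := by
    have h1 := HW_cont M a
    have h2 := HW_cont K b
    fun_prop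
  apply setIntegral_mono_set
  · have h1 : IntegrableOn (fun t : ℝ => ‖DPb M a t‖ ^ 2 * ‖DPb K b t‖ ^ 2)
        (Set.Icc (-(N : ℝ) ^ (1 + 2 * ε)) ((N : ℝ) ^ (1 + 2 * ε))) :=
      hc.continuousOn.integrableOn_Icc
    apply h1.mono_set
    intro t ht
    exact abs_le.mp ht.2
  · exact Filter.Eventually.of_forall (fun t => by positivity)
  · apply HasSubset.Subset.eventuallyLE
    intro t ht
    exact ⟨(pow_le_pow_right₀ hN hB).trans ht.1, ht.2⟩

private theorem HW_dyadic (g : ℕ → ℂ) (K n : ℕ) :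
    ∑ j ∈ Ico K (2 ^ n * K), g j =
      ∑ i ∈ range n, ∑ j ∈ Ico (2 ^ i * K) (2 * (2 ^ i * K)), g j := by
  induction n with
  | zero => simp
  | succ n ih =>
    rw [sum_range_succ, ← ih, ← mul_assoc 2, ← pow_succ']
    rw [sum_Ico_consecutive]
    · exact Nat.le_mul_of_pos_left _ (by positivity)
    · exact Nat.mul_le_mul_right _ (Nat.pow_le_pow_right (by norm_num) (by omega))

private theorem HW_PP (N : ℕ) (hN : 1 ≤ N) (hl : 100 ≤ Real.log N) :
    ((PP N).card : ℝ) ≤ 64 * Real.log N ^ 2 := by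
  obtain ⟨L, hL⟩ : ∃ L, L = Nat.log 2 (64 * N ^ 3) := ⟨_, rfl⟩
  have hpos : 64 * N ^ 3 ≠ 0 := by positivity
  have hsub : PP N ⊆ range (L + 1) ×ˢ range (L + 1) := by
    intro w hw
    unfold PP at hw
    rw [mem_filter] at hw
    rw [mem_product, mem_range, mem_range]
    have h1 := hw.2.2
    have h2 : w.1 + w.2 ≤ L := by
      rw [hL]
      exact Nat.le_log_of_pow_le (by norm_num) h1
    omega
  have hc := card_le_card hsub
  rw [card_product, card_range] at hc
  have hL2 : (2 : ℝ) ^ L ≤ 64 * (N : ℝ) ^ 3 := by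
    have : 2 ^ L ≤ 64 * N ^ 3 := by
      rw [hL]
      exact Nat.pow_log_le_self 2 hpos
    exact_mod_cast this
  have hN0 : (0 : ℝ) < N := by exact_mod_cast hN
  have hL3 : (L : ℝ) * Real.log 2 ≤ Real.log 64 + 3 * Real.log N := by
    have h1 := Real.log_le_log (by positivity) hL2
    rw [Real.log_pow, Real.log_mul (by norm_num) (by positivity), Real.log_pow] at h1
    push_cast at h1
    exact h1
  have h64 : Real.log 64 = 6 * Real.log 2 := by
    have : (64 : ℝ) = 2 ^ 6 := by norm_num
    rw [this, Real.log_pow]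
    norm_num
  have hl2 := Real.log_two_gt_d9
  have hl2' := Real.log_two_lt_d9
  have hL4 : (L : ℝ) + 1 ≤ 8 * Real.log N := by
    have h2 : (L : ℝ) * 0.5 ≤ (L : ℝ) * Real.log 2 := by
      apply mul_le_mul_of_nonneg_left _ (Nat.cast_nonneg _)
      linarith
    rw [h64] at hL3
    linarith
  have hc' : ((PP N).card : ℝ) ≤ ((L : ℝ) + 1) * ((L : ℝ) + 1) := by exact_mod_cast hc
  calc ((PP N).card : ℝ) ≤ ((L : ℝ) + 1) * ((L : ℝ) + 1) := hc'
    _ ≤ (8 * Real.log N) * (8 * Real.log N) := by
        apply mul_le_mul hL4 hL4 (by positivity) (by linarith)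
    _ = 64 * Real.log N ^ 2 := by ring

private theorem HW_sum (M : ℕ) (a : ℕ → ℂ) (C : ℝ) (h : ∀ m ∈ Ico M (2 * M), ‖a m‖ ≤ C) :
    ∑ m ∈ Ico M (2 * M), ‖a m‖ ≤ M * C := by
  refine (sum_le_sum h).trans (le_of_eq ?_)
  rw [sum_const, Nat.card_Ico, nsmul_eq_mul]
  congr 2
  omega

private theorem HW_zero (M K : ℕ) (a b g : ℕ → ℂ) (h : (∀ m ∈ Ico M (2 * M), a m = 0) ∨
    ∀ k ∈ Ico K (2 * K), b k = 0) : BLb M K a b g = 0 := by
  unfold BLb
  apply sum_eq_zero
  intro m hm
  apply sum_eq_zero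
  intro k hk
  rcases h with h | h
  · rw [h m hm]
    ring
  · rw [h k hk]
    ring

theorem HW_last (a b x y z : ℝ) (h1 : a ≤ 6 * x) (h2 : b ≤ 1) (h3 : x ≤ y) (h4 : 0 ≤ y)
    (h5 : 1 + 192 * y ≤ z) : a + b ≤ z := by
  linarith

theorem HW (hVAU : VAU_stmt) (hHPB : HPB_stmt) (hTI : TI_stmt) (hTII : TII_stmt)
    (hCCB : CCB_stmt) : HW_stmt := by
  intro ε A B hε hε2
  obtain ⟨A₁, hA₁⟩ : ∃ A₁, A₁ = A + 3 := ⟨_, rfl⟩
  obtain ⟨B1, N1, hTI⟩ := hTI ε (2 * A₁ + 2) B hε hε2
  obtain ⟨B2, N2, hTII⟩ := hTII ε (2 * A₁ + 2) B hε hε2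
  obtain ⟨B0, hHPB⟩ := hHPB ε A₁ 3 (max B1 B2) hε
  refine ⟨max B0 1, ?_⟩
  intro B₂ hB₂
  obtain ⟨N3, hHPB⟩ := hHPB B₂ ((le_max_left _ _).trans hB₂)
  have hB₂1 : 1 ≤ B₂ := (le_max_right _ _).trans hB₂
  obtain ⟨N4, hVAU⟩ := hVAU
  obtain ⟨-, -, hPh1, hPh2, -, -⟩ := hCCB
  -- thresholds
  have hev1 : ∀ᶠ N : ℕ in Filter.atTop, (3000 : ℝ) ≤ Real.log N :=
    (Real.tendsto_log_atTop.comp tendsto_natCast_atTop_atTop).eventually_ge_atTop 3000
  have hev2 : ∀ᶠ N : ℕ in Filter.atTop, Real.log N ^ (A + 1) ≤ (N : ℝ) := by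
    have h1 := (Real.isLittleO_pow_log_id_atTop (n := A + 1)).bound (c := 1) one_pos
    have h2 := tendsto_natCast_atTop_atTop (R := ℝ) |>.eventually h1
    filter_upwards [h2] with N hN
    simp only [id, Real.norm_eq_abs, one_mul] at hN
    rw [abs_of_nonneg (Nat.cast_nonneg N : (0 : ℝ) ≤ N)] at hN
    exact (le_abs_self _).trans hN
  obtain ⟨N5, hN5⟩ := Filter.eventually_atTop.mp (hev1.and hev2)
  refine ⟨max (max N1 N2) (max (max N3 N4) (max N5 1)), ?_⟩
  intro N hN c hc
  have hNN1 : N1 ≤ N := by omega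
  have hNN2 : N2 ≤ N := by omega
  have hNN3 : N3 ≤ N := by omega
  have hNN4 : N4 ≤ N := by omega
  have hNN5 : N5 ≤ N := by omega
  have hN1' : 1 ≤ N := by omega
  obtain ⟨hl, hlA⟩ := hN5 N hNN5
  obtain ⟨ℓ, hℓ⟩ : ∃ ℓ, ℓ = Real.log N := ⟨_, rfl⟩
  rw [← hℓ] at hl hlA
  have hl1 : 1 ≤ ℓ := by linarith
  have hl0 : 0 < ℓ := by linarith
  have hNr : (0 : ℝ) < N := by exact_mod_cast hN1'
  have hexp : Real.exp ℓ = N := by rw [hℓ, Real.exp_log hNr]
  have hN1r : (1 : ℝ) ≤ N := by exact_mod_cast hN1'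
  have hln2 := Real.log_two_gt_d9
  have hln2' := Real.log_two_lt_d9
  obtain ⟨g, hg⟩ : ∃ g, g = gW N c (de ε N) (dB B₂ N) := ⟨_, rfl⟩
  have hde0 : 0 < de ε N := by
    unfold de
    positivity
  have hdB0 : 0 < dB B₂ N := by
    unfold dB
    rw [← hℓ]
    positivity
  have hlN : ℓ ≤ N := by
    rw [hℓ]
    have := Real.log_le_sub_one_of_pos hNr
    linarith
  have hde1 : de ε N ≤ 1 / ℓ := by
    unfold de
    rw [Real.rpow_neg hNr.le, ← one_div]
    apply one_div_le_one_div_of_le hl0
    calc ℓ ≤ N := hlN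
      _ = (N : ℝ) ^ (1 : ℝ) := (Real.rpow_one _).symm
      _ ≤ (N : ℝ) ^ (1 + ε) := Real.rpow_le_rpow_of_exponent_le hN1r (by linarith)
  have hdB1 : dB B₂ N ≤ 1 / ℓ := by
    unfold dB
    rw [← hℓ]
    apply one_div_le_one_div_of_le hl0
    exact le_self_pow₀ hl1 (by omega)
  have hg2 : ∀ j, ‖g j‖ ≤ 2 := by
    intro j
    rw [hg]
    unfold gW
    rw [Complex.norm_real, Real.norm_eq_abs]
    have h1 := hPh1 N c (de ε N) (Real.log j) hde0 hc
    have h2 := hPh1 N c (dB B₂ N) (Real.log j) hdB0 hc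
    rw [abs_le] at h1 h2 ⊢
    constructor <;> linarith [h1.1, h1.2, h2.1, h2.2]
  have hexpb : ∀ δ : ℝ, 0 < δ → δ ≤ 1 / ℓ → Real.exp (-(1 / (9 * δ ^ 2))) ≤
      Real.exp (-(ℓ ^ 2 / 9)) := by
    intro δ h0 h1
    apply Real.exp_le_exp.mpr
    apply neg_le_neg
    rw [div_le_div_iff₀ (by norm_num) (by positivity)]
    have h2 : δ * ℓ ≤ 1 := by
      rw [le_div_iff₀ hl0] at h1
      exact h1
    have h3 : (δ * ℓ) ^ 2 ≤ 1 := pow_le_one₀ (by positivity) h2
    nlinarith
  have hgdec : ∀ j : ℕ, 1 ≤ j → (2 * j ≤ N ^ 3 ∨ 16 * N ^ 3 ≤ j) → ‖g j‖ ≤ 1 / (N : ℝ) ^ 10 := by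
    intro j hj hj2
    have hj0 : (0 : ℝ) < j := by exact_mod_cast hj
    have hcond : (Real.log j ≤ 3 * Real.log N - Real.log 2 ∨
        3 * Real.log (2 * N) + Real.log 2 ≤ Real.log j) := by
      rcases hj2 with h | h
      · left
        have h1 : (2 : ℝ) * j ≤ (N : ℝ) ^ 3 := by exact_mod_cast h
        have h2 := Real.log_le_log (by positivity) h1
        rw [Real.log_mul (by norm_num) hj0.ne', Real.log_pow] at h2
        push_cast at h2
        linarith
      · right
        have h1 : (16 : ℝ) * (N : ℝ) ^ 3 ≤ j := by exact_mod_cast h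
        have h2 := Real.log_le_log (by positivity) h1
        rw [Real.log_mul (by norm_num) (by positivity), Real.log_pow] at h2
        push_cast at h2
        rw [Real.log_mul (by norm_num) hNr.ne']
        have h16 : Real.log 16 = 4 * Real.log 2 := by
          have : (16 : ℝ) = 2 ^ 4 := by norm_num
          rw [this, Real.log_pow]
          norm_num
        rw [h16] at h2
        linarith
    have h1 := hPh2 N c (de ε N) (Real.log j) hN1' hde0 hc hcond
    have h2 := hPh2 N c (dB B₂ N) (Real.log j) hN1' hdB0 hc hcond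
    have h3 := hexpb _ hde0 hde1
    have h4 := hexpb _ hdB0 hdB1
    have h5 : ‖g j‖ ≤ 4 * Real.exp (-(ℓ ^ 2 / 9)) := by
      rw [hg]
      unfold gW
      rw [Complex.norm_real, Real.norm_eq_abs]
      have := abs_sub (Ph N c (de ε N) (Real.log j)) (Ph N c (dB B₂ N) (Real.log j))
      linarith
    refine h5.trans ?_
    have h6 : (4 : ℝ) ≤ Real.exp 2 := by
      have := Real.add_one_le_exp (1 : ℝ)
      have h7 : Real.exp 2 = Real.exp 1 * Real.exp 1 := by
        rw [← Real.exp_add]
        norm_num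
      nlinarith
    have h8 : 1 / (N : ℝ) ^ 10 = Real.exp (-(10 * ℓ)) := by
      rw [← hexp, ← Real.exp_nat_mul, Real.exp_neg, one_div]
      norm_num
    rw [h8]
    calc 4 * Real.exp (-(ℓ ^ 2 / 9)) ≤ Real.exp 2 * Real.exp (-(ℓ ^ 2 / 9)) :=
          mul_le_mul_of_nonneg_right h6 (Real.exp_pos _).le
      _ = Real.exp (2 + -(ℓ ^ 2 / 9)) := (Real.exp_add _ _).symm
      _ ≤ Real.exp (-(10 * ℓ)) := by
          apply Real.exp_le_exp.mpr
          nlinarith
  -- `1 + 192 N^3/ℓ^(A+1) ≤ N^3/ℓ^A`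
  have hfin : 1 + 192 * ((N : ℝ) ^ 3 / ℓ ^ (A + 1)) ≤ (N : ℝ) ^ 3 / ℓ ^ A := by
    have hp : 0 < ℓ ^ (A + 1) := by positivity
    have h1 : 1 ≤ (N : ℝ) ^ 3 / ℓ ^ (A + 1) := by
      rw [le_div_iff₀ hp, one_mul]
      exact hlA.trans (le_self_pow₀ hN1r (by norm_num))
    have h2 : (N : ℝ) ^ 3 / ℓ ^ A = ℓ * ((N : ℝ) ^ 3 / ℓ ^ (A + 1)) := by
      rw [pow_succ ℓ A]
      field_simp
    rw [h2]
    nlinarith
  -- the bound for a block from HPB
  have hblock : ∀ (M K : ℕ) (a b : ℕ → ℂ), 1 ≤ M → 1 ≤ K →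
      (∑ m ∈ Ico M (2 * M), ‖a m‖) * ∑ k ∈ Ico K (2 * K), ‖b k‖ ≤ (N : ℝ) ^ 3 * ℓ ^ 3 →
      ∫ t in Tset ε (max B1 B2) N, ‖DPb M a t‖ ^ 2 * ‖DPb K b t‖ ^ 2 ≤
        (N : ℝ) ^ 6 / ℓ ^ (2 * A₁ + 2) →
      ‖BLb M K a b g‖ ≤ (N : ℝ) ^ 3 / ℓ ^ A₁ := by
    intro M K a b hM hK h1 h2
    rw [hg, hℓ]
    rw [hℓ] at h1 h2
    exact hHPB N hNN3 c hc M K a b hM hK h1 h2
  have hlog4 : ∀ m M : ℕ, m < 2 * M → M ≤ 64 * N ^ 3 → Real.log m ≤ 4 * ℓ := by
    intro m M hm hM
    rcases Nat.eq_zero_or_pos m with h0 | h0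
    · rw [h0]
      simp
      linarith
    · have h1 : m ≤ 128 * N ^ 3 := by omega
      have h2 : (m : ℝ) ≤ 128 * (N : ℝ) ^ 3 := by exact_mod_cast h1
      have h3 := Real.log_le_log (by exact_mod_cast h0) h2
      rw [Real.log_mul (by norm_num) (by positivity), Real.log_pow] at h3
      have h128 : Real.log 128 = 7 * Real.log 2 := by
        have : (128 : ℝ) = 2 ^ 7 := by norm_num
        rw [this, Real.log_pow]
        norm_num
      rw [h128, ← hℓ] at h3
      push_cast at h3
      linarith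
  -- `U`
  obtain ⟨U, hU⟩ : ∃ U, U = ⌈(N : ℝ) ^ ε⌉₊ := ⟨_, rfl⟩
  have hNe1 : 1 ≤ (N : ℝ) ^ ε := Real.one_le_rpow hN1r hε.le
  have hU1 : (N : ℝ) ^ ε ≤ U := by
    rw [hU]
    exact Nat.le_ceil _
  have hU2 : (U : ℝ) ≤ 2 * (N : ℝ) ^ ε := by
    rw [hU]
    have := Nat.ceil_lt_add_one (by positivity : 0 ≤ (N : ℝ) ^ ε)
    linarith
  have hU3 : 1 ≤ U := by
    have : (1 : ℝ) ≤ U := hNe1.trans hU1
    exact_mod_cast this
  have hNε : (N : ℝ) ^ ε ≤ (N : ℝ) ^ (1 / 20 : ℝ) :=
    Real.rpow_le_rpow_of_exponent_le hN1r hε2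
  have hN110 : (16 : ℝ) ≤ (N : ℝ) ^ (1 / 10 : ℝ) := by
    have h1 : (N : ℝ) ^ (1 / 10 : ℝ) = Real.exp (ℓ * (1 / 10)) := by
      rw [Real.rpow_def_of_pos hNr, ← hℓ]
    rw [h1]
    have := Real.add_one_le_exp (ℓ * (1 / 10))
    linarith
  have hUU : ((U : ℝ)) ^ 2 ≤ (N : ℝ) ^ (1 / 5 : ℝ) := by
    calc ((U : ℝ)) ^ 2 ≤ (2 * (N : ℝ) ^ (1 / 20 : ℝ)) ^ 2 :=
          pow_le_pow_left₀ (by positivity) (by linarith) 2
      _ = 4 * (N : ℝ) ^ (1 / 10 : ℝ) := by
          rw [mul_pow, ← Real.rpow_natCast ((N : ℝ) ^ (1 / 20 : ℝ)) 2, ← Real.rpow_mul hNr.le]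
          norm_num
      _ ≤ (N : ℝ) ^ (1 / 10 : ℝ) * (N : ℝ) ^ (1 / 10 : ℝ) := by
          apply mul_le_mul_of_nonneg_right _ (by positivity)
          linarith
      _ = (N : ℝ) ^ (1 / 5 : ℝ) := by
          rw [← Real.rpow_add hNr]
          norm_num
  have hN15 : (N : ℝ) ^ (1 / 5 : ℝ) ≤ N := by
    calc (N : ℝ) ^ (1 / 5 : ℝ) ≤ (N : ℝ) ^ (1 : ℝ) :=
          Real.rpow_le_rpow_of_exponent_le hN1r (by norm_num)
      _ = N := Real.rpow_one _
  have hU4 : U ^ 3 ≤ N := by
    have h1 : ((U : ℝ)) ^ 3 ≤ N := by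
      have h2 : (U : ℝ) ≤ (U : ℝ) ^ 2 := le_self_pow₀ (by exact_mod_cast hU3) (by norm_num)
      calc ((U : ℝ)) ^ 3 = (U : ℝ) ^ 2 * U := by ring
        _ ≤ (N : ℝ) ^ (1 / 5 : ℝ) * (N : ℝ) ^ (1 / 5 : ℝ) :=
            mul_le_mul hUU (h2.trans hUU) (by positivity) (by positivity)
        _ = (N : ℝ) ^ (2 / 5 : ℝ) := by
            rw [← Real.rpow_add hNr]
            norm_num
        _ ≤ (N : ℝ) ^ (1 : ℝ) := Real.rpow_le_rpow_of_exponent_le hN1r (by norm_num)
        _ = N := Real.rpow_one _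
    exact_mod_cast h1
  constructor
  · intro q hq hqB χ
    rw [← hg, ← hℓ]
    have hqB' : (q : ℝ) ≤ Real.log N ^ B := hqB
    have hχ : ∀ m : ℕ, ‖χ (m : ZMod q)‖ ≤ 1 := fun m => DirichletCharacter.norm_le_one χ _
    refine (hVAU N hNN4 U q χ g hU3 hU4 hg2 hgdec).trans ?_
    have hw : ∀ w ∈ PP N,
        (‖BLb (2 ^ w.1) (2 ^ w.2) (fun d => if d ≤ U then ((moebius d : ℤ) : ℂ) * χ d else 0)
            (fun k => χ k * (Real.log k : ℂ) ^ 1) g‖ +
          ‖BLb (2 ^ w.1) (2 ^ w.2) (fun d => ((eU U d : ℝ) : ℂ) * χ d)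
            (fun k => χ k * (Real.log k : ℂ) ^ 0) g‖ +
          ‖BLb (2 ^ w.1) (2 ^ w.2) (fun m => if U < m then (vonMangoldt m : ℂ) * χ m else 0)
            (fun k => ((beta U k : ℝ) : ℂ) * χ k) g‖) ≤ 3 * ((N : ℝ) ^ 3 / ℓ ^ A₁) := by
      intro w hw
      unfold PP at hw
      rw [mem_filter] at hw
      obtain ⟨-, hw1, hw2⟩ := hw
      rw [pow_add] at hw1 hw2
      obtain ⟨D, hD⟩ : ∃ D, D = 2 ^ w.1 := ⟨_, rfl⟩
      obtain ⟨K, hK⟩ : ∃ K, K = 2 ^ w.2 := ⟨_, rfl⟩
      rw [← hD, ← hK] at hw1 hw2 ⊢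
      have hD1 : 1 ≤ D := by
        rw [hD]
        exact Nat.one_le_two_pow
      have hK1 : 1 ≤ K := by
        rw [hK]
        exact Nat.one_le_two_pow
      have hDN : D ≤ 64 * N ^ 3 := (Nat.le_mul_of_pos_right D hK1).trans hw2
      have hKN : K ≤ 64 * N ^ 3 := (Nat.le_mul_of_pos_left K hD1).trans hw2
      have hDKr : (D : ℝ) * K ≤ 64 * (N : ℝ) ^ 3 := by exact_mod_cast hw2
      have hnn : 0 ≤ (N : ℝ) ^ 3 / ℓ ^ A₁ := by positivity
      -- type I
      have htypeI : ∀ (a : ℕ → ℂ) (h : ℕ), h ≤ 1 → (∀ m, U * U < m → a m = 0) →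
          (∀ m, ‖a m‖ ≤ ℓ) →
          ‖BLb D K a (fun k => χ k * (Real.log k : ℂ) ^ h) g‖ ≤ (N : ℝ) ^ 3 / ℓ ^ A₁ := by
        intro a h hh ha0 ha1
        by_cases hcase : D ≤ U * U
        · have hDr : (D : ℝ) ≤ (N : ℝ) ^ (1 / 5 : ℝ) := by
            have : (D : ℝ) ≤ (U : ℝ) ^ 2 := by
              rw [pow_two]
              exact_mod_cast hcase
            exact this.trans hUU
          apply hblock D K _ _ hD1 hK1
          · have s1 := HW_sum D a ℓ (fun m _ => ha1 m)
            have s2 := HW_sum K (fun k => χ k * (Real.log k : ℂ) ^ h) (4 * ℓ) (by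
              intro k hk
              rw [mem_Ico] at hk
              have hk0 : 0 ≤ Real.log k := Real.log_natCast_nonneg k
              have hk4 := hlog4 k K hk.2 hKN
              rw [norm_mul, norm_pow, Complex.norm_real, Real.norm_eq_abs, abs_of_nonneg hk0]
              calc ‖χ (k : ZMod q)‖ * Real.log k ^ h ≤ 1 * Real.log k ^ h :=
                    mul_le_mul_of_nonneg_right (hχ k) (by positivity)
                _ = Real.log k ^ h := one_mul _
                _ ≤ 4 * ℓ := by
                    interval_cases h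
                    · rw [pow_zero]
                      linarith
                    · rw [pow_one]
                      exact hk4)
            calc _ ≤ ((D : ℝ) * ℓ) * ((K : ℝ) * (4 * ℓ)) :=
                  mul_le_mul s1 s2 (by positivity) (by positivity)
              _ = (D : ℝ) * K * (4 * ℓ ^ 2) := by ring
              _ ≤ 64 * (N : ℝ) ^ 3 * (4 * ℓ ^ 2) :=
                  mul_le_mul_of_nonneg_right hDKr (by positivity)
              _ = (N : ℝ) ^ 3 * ℓ ^ 2 * 256 := by ring
              _ ≤ (N : ℝ) ^ 3 * ℓ ^ 2 * ℓ := by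
                  apply mul_le_mul_of_nonneg_left _ (by positivity)
                  linarith
              _ = (N : ℝ) ^ 3 * ℓ ^ 3 := by ring
          · refine (HW_int ε B1 (max B1 B2) N (le_max_left _ _) (by rw [← hℓ]; exact hl1) D K
              _ _).trans ?_
            rw [hℓ]
            apply hTI N hNN1 q hq hqB' χ D K h a hD1 hDr hw1 hw2 hh
            intro d
            refine (ha1 d).trans ?_
            rw [← hℓ]
            exact le_self_pow₀ hl1 (by norm_num)
        · rw [HW_zero D K _ _ g (Or.inl (fun m hm => ha0 m (by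
            rw [mem_Ico] at hm
            omega))), norm_zero]
          exact hnn
      have t1 := htypeI (fun d => if d ≤ U then ((moebius d : ℤ) : ℂ) * χ d else 0) 1 le_rfl
        (by
          intro m hm
          have hUU' : U ≤ U * U := Nat.le_mul_of_pos_left U hU3
          show (if m ≤ U then ((moebius m : ℤ) : ℂ) * χ m else 0) = 0
          rw [if_neg (by omega)])
        (by
          intro m
          show ‖(if m ≤ U then ((moebius m : ℤ) : ℂ) * χ m else 0)‖ ≤ ℓ
          split_ifs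
          · rw [norm_mul]
            have h1 : ‖((moebius m : ℤ) : ℂ)‖ ≤ 1 := by
              rw [Complex.norm_intCast]
              exact_mod_cast abs_moebius_le_one (n := m)
            calc _ ≤ 1 * 1 := mul_le_mul h1 (hχ m) (norm_nonneg _) zero_le_one
              _ ≤ ℓ := by linarith
          · rw [norm_zero]
            exact hl0.le)
      have t2 := htypeI (fun d => ((eU U d : ℝ) : ℂ) * χ d) 0 (by norm_num)
        (by
          intro m hm
          show ((eU U m : ℝ) : ℂ) * χ m = 0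
          unfold eU
          rw [(HW_coef U U).1 m hm]
          simp)
        (by
          intro m
          show ‖((eU U m : ℝ) : ℂ) * χ m‖ ≤ ℓ
          rw [norm_mul, Complex.norm_real, Real.norm_eq_abs]
          have h1 : |eU U m| ≤ ℓ := by
            rcases Nat.eq_zero_or_pos m with h0 | h0
            · rw [h0]
              simp
              exact hl0.le
            · by_cases hm : U * U < m
              · unfold eU
                rw [(HW_coef U U).1 m hm, abs_zero]
                exact hl0.le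
              · refine ((HW_coef U U).2 m (by omega)).trans ?_
                rw [hℓ]
                apply Real.log_le_log (by exact_mod_cast h0)
                have h2 : (m : ℝ) ≤ (U : ℝ) ^ 2 := by
                  rw [pow_two]
                  exact_mod_cast (not_lt.mp hm)
                exact h2.trans (hUU.trans hN15)
          calc |eU U m| * ‖χ (m : ZMod q)‖ ≤ ℓ * 1 :=
                mul_le_mul h1 (hχ m) (norm_nonneg _) hl0.le
            _ = ℓ := mul_one _)
      -- type II
      have t3 : ‖BLb D K (fun m => if U < m then (vonMangoldt m : ℂ) * χ m else 0)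
            (fun k => ((beta U k : ℝ) : ℂ) * χ k) g‖ ≤ (N : ℝ) ^ 3 / ℓ ^ A₁ := by
        by_cases hc1 : U ≤ 2 * D
        · by_cases hc2 : U ≤ 2 * K
          · apply hblock D K _ _ hD1 hK1
            · have s1 := HW_sum D (fun m => if U < m then (vonMangoldt m : ℂ) * χ m else 0)
                (4 * ℓ) (by
                  intro m hm
                  rw [mem_Ico] at hm
                  have hm4 := hlog4 m D hm.2 hDN
                  show ‖(if U < m then (vonMangoldt m : ℂ) * χ m else 0)‖ ≤ 4 * ℓ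
                  split_ifs
                  · rw [norm_mul, Complex.norm_real, Real.norm_eq_abs,
                      abs_of_nonneg vonMangoldt_nonneg]
                    calc vonMangoldt m * ‖χ (m : ZMod q)‖ ≤ vonMangoldt m * 1 :=
                          mul_le_mul_of_nonneg_left (hχ m) vonMangoldt_nonneg
                      _ = vonMangoldt m := mul_one _
                      _ ≤ Real.log m := vonMangoldt_le_log
                      _ ≤ 4 * ℓ := hm4
                  · rw [norm_zero]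
                    linarith)
              have s2 : ∑ k ∈ Ico K (2 * K), ‖((beta U k : ℝ) : ℂ) * χ k‖ ≤
                  10 * K * ℓ := by
                calc ∑ k ∈ Ico K (2 * K), ‖((beta U k : ℝ) : ℂ) * χ k‖
                    ≤ ∑ k ∈ Ico K (2 * K), tau k := by
                      apply sum_le_sum
                      intro k _
                      rw [norm_mul, Complex.norm_real, Real.norm_eq_abs]
                      calc |beta U k| * ‖χ (k : ZMod q)‖ ≤ tau k * 1 :=
                            mul_le_mul (abs_beta_le U k) (hχ k) (norm_nonneg _) (tau_nonneg k)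
                        _ = tau k := mul_one _
                  _ ≤ ∑ k ∈ Ioc 0 (2 * K), tau k := by
                      apply sum_le_sum_of_subset_of_nonneg
                      · intro k hk
                        rw [mem_Ico] at hk
                        rw [mem_Ioc]
                        omega
                      · intro k _ _
                        exact tau_nonneg k
                  _ ≤ ((2 * K : ℕ) : ℝ) * (1 + Real.log ((2 * K : ℕ) : ℝ)) := sum_tau_le _
                  _ ≤ ((2 * K : ℕ) : ℝ) * (5 * ℓ) := by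
                      apply mul_le_mul_of_nonneg_left _ (Nat.cast_nonneg _)
                      have h1 : Real.log ((2 * K : ℕ) : ℝ) ≤ 4 * ℓ := by
                        have h2 : ((2 * K : ℕ) : ℝ) ≤ 128 * (N : ℝ) ^ 3 := by
                          have : 2 * K ≤ 128 * N ^ 3 := by omega
                          exact_mod_cast this
                        have h3 := Real.log_le_log (by
                          have : 0 < 2 * K := by omega
                          exact_mod_cast this) h2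
                        rw [Real.log_mul (by norm_num) (by positivity), Real.log_pow] at h3
                        have h128 : Real.log 128 = 7 * Real.log 2 := by
                          have : (128 : ℝ) = 2 ^ 7 := by norm_num
                          rw [this, Real.log_pow]
                          norm_num
                        rw [h128, ← hℓ] at h3
                        push_cast at h3 ⊢
                        linarith
                      linarith
                  _ = 10 * K * ℓ := by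
                      push_cast
                      ring
              calc _ ≤ ((D : ℝ) * (4 * ℓ)) * (10 * K * ℓ) :=
                    mul_le_mul s1 s2 (by positivity) (by positivity)
                _ = (D : ℝ) * K * (40 * ℓ ^ 2) := by ring
                _ ≤ 64 * (N : ℝ) ^ 3 * (40 * ℓ ^ 2) :=
                    mul_le_mul_of_nonneg_right hDKr (by positivity)
                _ = (N : ℝ) ^ 3 * ℓ ^ 2 * 2560 := by ring
                _ ≤ (N : ℝ) ^ 3 * ℓ ^ 2 * ℓ := by
                    apply mul_le_mul_of_nonneg_left _ (by positivity)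
                    linarith
                _ = (N : ℝ) ^ 3 * ℓ ^ 3 := by ring
            · refine (HW_int ε B2 (max B1 B2) N (le_max_right _ _) (by rw [← hℓ]; exact hl1) D K
                _ _).trans ?_
              rw [hℓ]
              exact hTII N hNN2 q hq hqB' χ D K U hU1 hc1 hc2 hw1 hw2
          · rw [HW_zero D K _ _ g (Or.inr (fun k hk => by
              rw [mem_Ico] at hk
              show ((beta U k : ℝ) : ℂ) * χ k = 0
              rw [beta_eq_zero U k (by omega)]
              simp)), norm_zero]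
            exact hnn
        · rw [HW_zero D K _ _ g (Or.inl (fun m hm => by
            rw [mem_Ico] at hm
            show (if U < m then (vonMangoldt m : ℂ) * χ m else 0) = 0
            rw [if_neg (by omega)])), norm_zero]
          exact hnn
      linarith
    have hsum := sum_le_sum hw
    rw [sum_const, nsmul_eq_mul] at hsum
    have hcard := HW_PP N hN1' (by rw [← hℓ]; linarith)
    rw [← hℓ] at hcard
    have hlast : ((PP N).card : ℝ) * (3 * ((N : ℝ) ^ 3 / ℓ ^ A₁)) ≤
        192 * ((N : ℝ) ^ 3 / ℓ ^ (A + 1)) := by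
      calc ((PP N).card : ℝ) * (3 * ((N : ℝ) ^ 3 / ℓ ^ A₁)) ≤
            (64 * ℓ ^ 2) * (3 * ((N : ℝ) ^ 3 / ℓ ^ A₁)) :=
            mul_le_mul_of_nonneg_right hcard (by positivity)
        _ = 192 * ((N : ℝ) ^ 3 / ℓ ^ (A + 1)) := by
            have : ℓ ^ A₁ = ℓ ^ (A + 1) * ℓ ^ 2 := by
              rw [hA₁, ← pow_add]
            rw [this]
            field_simp
            ring
    linarith
  · rw [← hg, ← hℓ]
    obtain ⟨L, hL⟩ : ∃ L, L = Nat.log 2 (N ^ 3) := ⟨_, rfl⟩
    have hNbig : 16 ≤ N := by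
      have : (16 : ℝ) ≤ N := by linarith
      exact_mod_cast this
    have hN3 : N ^ 3 ≠ 0 := by positivity
    have hLle : 2 ^ L ≤ N ^ 3 := by
      rw [hL]
      exact Nat.pow_log_le_self 2 hN3
    have hLlt : N ^ 3 < 2 ^ (L + 1) := by
      rw [hL]
      exact Nat.lt_pow_succ_log_self (by norm_num) _
    have hL1 : 1 ≤ L := by
      by_contra hcon
      have h0 : L = 0 := by omega
      rw [h0] at hLlt
      have h1 : N ≤ N ^ 3 := Nat.le_self_pow (by norm_num) N
      omega
    obtain ⟨K, hK⟩ : ∃ K, K = 2 ^ (L - 1) := ⟨_, rfl⟩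
    have hK2 : 2 * K = 2 ^ L := by
      rw [hK, ← pow_succ']
      congr 1
      omega
    have hK4 : N ^ 3 < 4 * K := by
      rw [pow_succ 2 L, ← hK2] at hLlt
      omega
    have hK1 : 1 ≤ K := by
      rw [hK]
      exact Nat.one_le_two_pow
    have hKN : 2 * K ≤ N ^ 3 := by
      rw [hK2]
      exact hLle
    -- split off the main range
    have hsplit : ∑ j ∈ Ioc 0 (64 * N ^ 3), g j = ∑ j ∈ Ico K (2 ^ 6 * K), g j +
        ∑ j ∈ (Ioc 0 (64 * N ^ 3)) \ (Ico K (2 ^ 6 * K)), g j := by
      rw [add_comm]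
      refine (sum_sdiff ?_).symm
      intro j hj
      rw [mem_Ico] at hj
      rw [mem_Ioc]
      norm_num at hj
      omega
    have hrest : ‖∑ j ∈ (Ioc 0 (64 * N ^ 3)) \ (Ico K (2 ^ 6 * K)), g j‖ ≤ 1 := by
      refine (norm_sum_le _ _).trans ?_
      have h1 : ∀ j ∈ (Ioc 0 (64 * N ^ 3)) \ (Ico K (2 ^ 6 * K)), ‖g j‖ ≤ 1 / (N : ℝ) ^ 10 := by
        intro j hj
        rw [mem_sdiff, mem_Ioc, mem_Ico] at hj
        apply hgdec j (by omega)
        by_cases hjK : j < K
        · left
          omega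
        · right
          have := hj.2
          norm_num at this
          have h2 := this (by omega)
          omega
      refine (sum_le_sum h1).trans ?_
      rw [sum_const, nsmul_eq_mul]
      have h2 : (((Ioc 0 (64 * N ^ 3)) \ (Ico K (2 ^ 6 * K))).card : ℝ) ≤ 64 * (N : ℝ) ^ 3 := by
        have := card_le_card (sdiff_subset (s := Ioc 0 (64 * N ^ 3)) (t := Ico K (2 ^ 6 * K)))
        rw [Nat.card_Ioc, Nat.sub_zero] at this
        exact_mod_cast this
      calc _ ≤ 64 * (N : ℝ) ^ 3 * (1 / (N : ℝ) ^ 10) :=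
            mul_le_mul_of_nonneg_right h2 (by positivity)
        _ = 64 / (N : ℝ) ^ 7 := by
            field_simp
        _ ≤ 1 := by
            rw [div_le_one (by positivity)]
            have : (64 : ℝ) ≤ N := by linarith
            exact this.trans (le_self_pow₀ hN1r (by norm_num))
    have hmain : ‖∑ j ∈ Ico K (2 ^ 6 * K), g j‖ ≤ 6 * ((N : ℝ) ^ 3 / ℓ ^ A₁) := by
      rw [HW_dyadic g K 6]
      refine (norm_sum_le _ _).trans ?_
      have h1 : ∀ i ∈ range 6, ‖∑ j ∈ Ico (2 ^ i * K) (2 * (2 ^ i * K)), g j‖ ≤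
          (N : ℝ) ^ 3 / ℓ ^ A₁ := by
        intro i hi
        rw [mem_range] at hi
        obtain ⟨K', hK'⟩ : ∃ K', K' = 2 ^ i * K := ⟨_, rfl⟩
        have hp1 : 1 ≤ 2 ^ i := Nat.one_le_two_pow
        have hp2 : 2 ^ i ≤ 2 ^ 5 := Nat.pow_le_pow_right (by norm_num) (by omega)
        have hKK' : K ≤ K' := by
          rw [hK']
          exact Nat.le_mul_of_pos_left K hp1
        have hK'2 : K' ≤ 32 * K := by
          rw [hK']
          exact Nat.mul_le_mul_right K (by omega)
        rw [← hK']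
        have e1 : ∑ j ∈ Ico K' (2 * K'), g j = BLb 1 K' (fun _ => 1)
            (fun k => (1 : DirichletCharacter ℂ 1) k * (Real.log k : ℂ) ^ 0) g := by
          unfold BLb
          have e2 : Ico 1 (2 * 1) = {1} := by decide
          rw [e2, sum_singleton]
          apply sum_congr rfl
          intro k _
          have e3 : (1 : DirichletCharacter ℂ 1) (k : ZMod 1) = 1 :=
            MulChar.one_apply (isUnit_of_subsingleton _)
          show _ = (1 : ℂ) * ((1 : DirichletCharacter ℂ 1) (k : ZMod 1) * (Real.log k : ℂ) ^ 0) *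
            g (1 * k)
          rw [e3, pow_zero, one_mul, one_mul, one_mul, one_mul]
        rw [e1]
        apply hblock 1 K' _ _ le_rfl (by omega)
        · have s1 := HW_sum 1 (fun _ => (1 : ℂ)) 1 (by intro m _; simp)
          have s2 := HW_sum K' (fun k => (1 : DirichletCharacter ℂ 1) k * (Real.log k : ℂ) ^ 0)
            1 (by
              intro k _
              rw [pow_zero, mul_one]
              exact DirichletCharacter.norm_le_one _ _)
          have s3 : (K' : ℝ) ≤ 16 * (N : ℝ) ^ 3 := by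
            have : K' ≤ 16 * N ^ 3 := by omega
            exact_mod_cast this
          calc _ ≤ (((1 : ℕ) : ℝ) * 1) * ((K' : ℝ) * 1) :=
                mul_le_mul s1 s2 (by positivity) (by positivity)
            _ = K' := by push_cast; ring
            _ ≤ 16 * (N : ℝ) ^ 3 := s3
            _ ≤ ℓ ^ 3 * (N : ℝ) ^ 3 := by
                apply mul_le_mul_of_nonneg_right _ (by positivity)
                exact (by linarith : (16 : ℝ) ≤ ℓ).trans (le_self_pow₀ hl1 (by norm_num))
            _ = (N : ℝ) ^ 3 * ℓ ^ 3 := by ring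
        · refine (HW_int ε B1 (max B1 B2) N (le_max_left _ _) (by rw [← hℓ]; exact hl1) 1 K'
            _ _).trans ?_
          rw [hℓ]
          apply hTI N hNN1 1 le_rfl _ 1 1 K' 0 (fun _ => 1) le_rfl _ _ _ (by norm_num)
          · intro d
            rw [← hℓ, norm_one]
            exact one_le_pow₀ hl1
          · push_cast
            rw [← hℓ]
            exact one_le_pow₀ hl1
          · push_cast
            exact Real.one_le_rpow hN1r (by norm_num)
          · omega
          · omega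
      refine (sum_le_sum h1).trans (le_of_eq ?_)
      rw [sum_const, card_range, nsmul_eq_mul]
      norm_num
    have hA1 : (N : ℝ) ^ 3 / ℓ ^ A₁ ≤ (N : ℝ) ^ 3 / ℓ ^ (A + 1) := by
      apply div_le_div_of_nonneg_left (by positivity) (by positivity)
      rw [hA₁]
      exact pow_le_pow_right₀ hl1 (by omega)
    rw [hsplit]
    refine (norm_add_le _ _).trans ?_
    have hnn2 : 0 ≤ (N : ℝ) ^ 3 / ℓ ^ (A + 1) := by positivity
    exact HW_last _ _ _ _ _ hmain hrest hA1 hnn2 hfin

end Pool.Agent.CH
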