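import Pool.Agent.helper17.CH.SpecV
import Pool.Agent.helper23.Slope.RA

/-!
# Project CH (MP_5628fe_nt), row RC: number of rough numbers
-/

set_option autoImplicit false

namespace Pool.Agent.CH

open Finset Pool.Agent.Lib.BrunHooley

private lemma RC_exists (e : ℕ) (he : 1 ≤ e) (y : ℝ) (hy : (2 : ℝ) ^ e ≤ y) :
    ∃ r : ℕ, (Z r : ℝ) ^ e ≤ y ∧ y < (Z r : ℝ) ^ (2 * e) := by
  classical
  have hex : ∃ r : ℕ, y < (Z r : ℝ) ^ e := by
    obtain ⟨k, hk⟩ := exists_nat_gt y
    refine ⟨k, hk.trans_le ?_⟩
    have h1 : k ≤ Z k := by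
      have a1 : k < 2 ^ k := Nat.lt_two_pow_self
      have a2 : 2 ^ k < 2 ^ (2 ^ k) := Nat.lt_two_pow_self
      have a3 : Z k = 2 ^ (2 ^ k) := rfl
      omega
    have h2 : Z k ≤ (Z k) ^ e := Nat.le_self_pow (by omega) _
    exact_mod_cast h1.trans h2
  obtain ⟨m, hm⟩ : ∃ m, m = Nat.find hex := ⟨_, rfl⟩
  have hm1 : y < (Z m : ℝ) ^ e := by
    rw [hm]
    exact Nat.find_spec hex
  cases m with
  | zero =>
    exfalso
    have h0 : (Z 0 : ℝ) = 2 := by
      have : Z 0 = 2 := rfl
      rw [this]
      norm_num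
    rw [h0] at hm1
    linarith
  | succ r =>
    refine ⟨r, ?_, ?_⟩
    · have := Nat.find_min hex (m := r) (by omega)
      exact not_lt.mp this
    · rw [Z_succ] at hm1
      push_cast at hm1
      rw [← pow_two, ← pow_mul] at hm1
      exact hm1

theorem RC : RC_stmt := by
  obtain ⟨C, E, hC, hrs⟩ := Pool.Agent.helper96.Slope.rough_short
  refine ⟨C * (2 * (2 * (E + 1))) + 1 + 2 * (E + 1), by positivity, ?_⟩
  intro y u hy hu _
  have hlog : 0 < Real.log y := Real.log_pos (by linarith)
  have hu0 : 0 < u := by linarith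
  by_cases huy : u < y
  · -- only `n = 1`
    have hsub : ((Ioc 0 ⌊u⌋₊).filter fun n => rgh y n) ⊆ {1} := by
      intro n hn
      rw [mem_filter, mem_Ioc] at hn
      obtain ⟨⟨hn0, hnu⟩, _, hr⟩ := hn
      rw [mem_singleton]
      by_contra hne
      have hp := Nat.minFac_prime hne
      have h1 := hr _ hp (Nat.minFac_dvd n)
      have h2 : n.minFac ≤ n := Nat.minFac_le hn0
      have h3 : (n : ℝ) ≤ u := (Nat.le_floor_iff hu0.le).mp hnu
      have h4 : (n.minFac : ℝ) ≤ n := by exact_mod_cast h2
      linarith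
    have hc := card_le_card hsub
    rw [card_singleton] at hc
    have hc' : (#((Ioc 0 ⌊u⌋₊).filter fun n => rgh y n) : ℝ) ≤ 1 := by exact_mod_cast hc
    have : 0 ≤ (C * (2 * (2 * (E + 1))) + 1 + 2 * (E + 1)) * u / Real.log y := by positivity
    linarith
  · push Not at huy
    by_cases hyE : y < (2 : ℝ) ^ (2 * (E + 1))
    · -- small `y`
      have h1 : (#((Ioc 0 ⌊u⌋₊).filter fun n => rgh y n) : ℝ) ≤ u := by
        have a1 := card_filter_le (Ioc 0 ⌊u⌋₊) (fun n => rgh y n)
        rw [Nat.card_Ioc] at a1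
        have a2 : (#((Ioc 0 ⌊u⌋₊).filter fun n => rgh y n) : ℝ) ≤ ((⌊u⌋₊ : ℕ) : ℝ) := by
          exact_mod_cast a1
        exact a2.trans (Nat.floor_le hu0.le)
      have h2 : Real.log y ≤ 2 * (E + 1) := by
        have a1 : Real.log y ≤ Real.log ((2 : ℝ) ^ (2 * (E + 1))) :=
          Real.log_le_log (by linarith) hyE.le
        rw [Real.log_pow] at a1
        push_cast at a1
        have a2 : Real.log 2 ≤ 1 := by
          have := Real.log_two_lt_d9
          linarith
        have a3 : (2 * ((E : ℝ) + 1)) * Real.log 2 ≤ (2 * ((E : ℝ) + 1)) * 1 :=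
          mul_le_mul_of_nonneg_left a2 (by positivity)
        linarith
      have h3 : u ≤ (2 * (E + 1)) * u / Real.log y := by
        rw [le_div_iff₀ hlog]
        nlinarith
      have h4 : (2 * (E + 1)) * u / Real.log y ≤
          (C * (2 * (2 * (E + 1))) + 1 + 2 * (E + 1)) * u / Real.log y := by
        apply div_le_div_of_nonneg_right _ hlog.le
        apply mul_le_mul_of_nonneg_right _ hu0.le
        have : 0 ≤ C * (2 * (2 * ((E : ℝ) + 1))) := by positivity
        linarith
      linarith
    · push Not at hyE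
      obtain ⟨r, hr1, hr2⟩ := RC_exists (2 * (E + 1)) (by omega) y hyE
      have hZ2 : (2 : ℝ) ≤ Z r := by exact_mod_cast two_le_Z r
      have hZlog : 0 < Real.log (Z r) := Real.log_pos (by linarith)
      have hlogy : Real.log y ≤ (2 * (2 * (E + 1))) * Real.log (Z r) := by
        have a1 := Real.log_le_log (by linarith) hr2.le
        rw [Real.log_pow] at a1
        push_cast at a1
        linarith
      have hrs' := hrs r 0 ⌊u⌋₊
      rw [zero_add] at hrs'
      -- the rough numbers are rough for `Z r`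
      have hcount : (#((Ioc 0 ⌊u⌋₊).filter fun n => rgh y n) : ℝ) ≤
          ∑ n ∈ Ioc 0 ⌊u⌋₊, Pool.Agent.helper96.Slope.rg r n := by
        rw [card_filter]
        push_cast
        apply sum_le_sum
        intro n _
        unfold Pool.Agent.helper96.Slope.rg
        split_ifs with h1 h2 h2
        · exact le_rfl
        · exfalso
          apply h2
          intro p hp hpn
          have hp' := Nat.mem_primesLE.mp hp
          have a1 := h1.2 p hp'.2 hpn
          have a2 : (p : ℝ) ≤ (Z r : ℝ) := by exact_mod_cast hp'.1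
          have a3 : (Z r : ℝ) ≤ (Z r : ℝ) ^ (2 * (E + 1)) :=
            le_self_pow₀ (by linarith) (by omega)
          linarith
        · exact zero_le_one
        · exact le_rfl
      have h1 : C * (⌊u⌋₊ : ℝ) / Real.log (Z r) ≤
          C * (2 * (2 * (E + 1))) * u / Real.log y := by
        rw [div_le_div_iff₀ hZlog hlog]
        have a1 : ((⌊u⌋₊ : ℕ) : ℝ) ≤ u := Nat.floor_le hu0.le
        calc C * (⌊u⌋₊ : ℝ) * Real.log y ≤ C * u * Real.log y := by
              apply mul_le_mul_of_nonneg_right _ hlog.le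
              exact mul_le_mul_of_nonneg_left a1 hC.le
          _ ≤ C * u * ((2 * (2 * (E + 1))) * Real.log (Z r)) :=
              mul_le_mul_of_nonneg_left hlogy (by positivity)
          _ = C * (2 * (2 * (E + 1))) * u * Real.log (Z r) := by ring
      have h2 : (Z r : ℝ) ^ E ≤ 1 * u / Real.log y := by
        have a1 : ((Z r : ℝ) ^ E) ^ 2 ≤ y := by
          calc ((Z r : ℝ) ^ E) ^ 2 = (Z r : ℝ) ^ (2 * E) := by rw [← pow_mul, mul_comm]
            _ ≤ (Z r : ℝ) ^ (2 * (E + 1)) := pow_le_pow_right₀ (by linarith) (by omega)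
            _ ≤ y := hr1
        have a2 : (Z r : ℝ) ^ E ≤ Real.sqrt y := by
          apply Real.le_sqrt_of_sq_le
          exact a1
        have a3 : Real.log y ≤ Real.sqrt y := by
          have b1 : Real.log y = 2 * Real.log (Real.sqrt y) := by
            rw [Real.log_sqrt (by linarith)]
            ring
          have b0 : 0 < Real.sqrt y := Real.sqrt_pos.mpr (by linarith)
          -- `2 log t ≤ t`
          have b2 : Real.log (Real.sqrt y / 2) ≤ Real.sqrt y / 2 - 1 :=
            Real.log_le_sub_one_of_pos (by positivity)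
          rw [Real.log_div b0.ne' (by norm_num)] at b2
          have b3 := Real.log_two_lt_d9
          rw [b1]
          linarith
        rw [one_mul, le_div_iff₀ hlog]
        have a4 : Real.sqrt y * Real.sqrt y = y := Real.mul_self_sqrt (by linarith)
        calc (Z r : ℝ) ^ E * Real.log y ≤ Real.sqrt y * Real.sqrt y :=
              mul_le_mul a2 a3 hlog.le (Real.sqrt_nonneg _)
          _ = y := a4
          _ ≤ u := huy
      have h3 : C * (2 * (2 * (E + 1))) * u / Real.log y + 1 * u / Real.log y ≤
          (C * (2 * (2 * (E + 1))) + 1 + 2 * (E + 1)) * u / Real.log y := by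
        rw [← add_div]
        apply div_le_div_of_nonneg_right _ hlog.le
        rw [← add_mul]
        apply mul_le_mul_of_nonneg_right _ hu0.le
        have : 0 ≤ 2 * ((E : ℝ) + 1) := by positivity
        linarith
      linarith

end Pool.Agent.CH
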